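import Pool.Agent.Y684.RI.Pol

/-!
The reflection inequality in terms of the `1`-Lipschitz curves of the library `TH221`.
-/

set_option autoImplicit false

open MeasureTheory Set Filter Topology Metric
open scoped ENNReal NNReal ContDiff

namespace Pool.Agent.Y684.RI

open Pool.Agent.TH221

variable {n : ℕ} {l : Eu n →L[ℝ] ℝ} {r : Eu n ≃ₗᵢ[ℝ] Eu n}

/-- truncation of a Lipschitz function with compact support to `[0, t]` -/
lemma clamp {v : Eu n → ℝ} (k : ℕ) (hk : k ≠ 0) {C : ℝ≥0} (hv : LipschitzWith C v)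
    (hvc : HasCompactSupport v) {t : ℝ} (ht : 0 < t) :
    ∃ u : Eu n → ℝ, LipschitzWith C u ∧ HasCompactSupport u ∧ (∀ x, 0 ≤ u x) ∧ (∀ x, u x ≤ t) ∧
      (∀ x, v x = t → u x = t) ∧ (∀ x, v x = 0 → u x = 0) ∧
      ∫⁻ x, ENNReal.ofReal ‖fderiv ℝ u x‖ ^ k ≤ ∫⁻ x, ENNReal.ofReal ‖fderiv ℝ v x‖ ^ k := by
  refine ⟨fun x => max (min (v x) t) 0, ?_, ?_, fun x => le_max_right _ _, fun x => ?_,
    fun x hx => ?_, fun x hx => ?_, ?_⟩
  · exact (hv.min_const t).max_const 0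
  · refine HasCompactSupport.of_support_subset_isCompact hvc ?_
    intro x hx
    by_contra hcon
    apply hx
    have h0 : v x = 0 := by
      by_contra hne
      exact hcon (subset_tsupport v hne)
    simp only [h0]
    rw [min_eq_left ht.le, max_self]
  · exact max_le (min_le_right _ _) ht.le
  · simp only [hx, min_self]
    exact max_eq_left ht.le
  · simp only [hx]
    rw [min_eq_left ht.le, max_self]
  · have hc : ∀ c : ℝ, ∫⁻ x : Eu n, ENNReal.ofReal ‖fderiv ℝ (fun _ : Eu n => c) x‖ ^ k = 0 := by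
      intro c
      simp [hk]
    have h1 := energy_max_min k hv (LipschitzWith.const (α := Eu n) (t : ℝ))
    have h2 := energy_max_min k (hv.min_const t) (LipschitzWith.const (α := Eu n) (0 : ℝ))
    rw [hc, add_zero] at h1 h2
    calc _ ≤ (∫⁻ x, ENNReal.ofReal ‖fderiv ℝ (fun y => max (min (v y) t) 0) x‖ ^ k) +
          (∫⁻ x, ENNReal.ofReal ‖fderiv ℝ (fun y => min (min (v y) t) 0) x‖ ^ k) := le_self_add
      _ = _ := h2
      _ ≤ _ := le_add_self
      _ = _ := h1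

/-- **Reflection inequality**, for a single admissible function -/
theorem core (hn : 2 ≤ n) (h : IsRefl l r) {E F : Set (Eu n)} (hE : IsCompact E)
    (hF : IsCompact F) (hEne : E.Nonempty) (hEl : ∀ x ∈ E, 0 < l x) (hFl : ∀ x ∈ F, l x < 0)
    {ρ : Eu n → ℝ≥0∞} (hρ : Adm ∅ E (r '' F) ρ) :
    (⨅ (σ : Eu n → ℝ≥0∞) (_ : Adm ∅ E F σ), ∫⁻ x, σ x ^ n) ≤ ∫⁻ x, ρ x ^ n := by
  have hn1 : 1 ≤ n := by omega
  by_cases hfin : ∫⁻ x, ρ x ^ n = ⊤
  · rw [hfin]; exact le_top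
  have hρtop : nrm volume ρ ≠ ⊤ := nrm_ne_top hfin
  have hF' : IsCompact (r '' F) := hF.image r.continuous
  have hstep : ∀ θ ∈ Ioo (0:ℝ) 1,
      (⨅ (σ : Eu n → ℝ≥0∞) (_ : Adm ∅ E F σ), ∫⁻ x, σ x ^ n) ≤
      (ENNReal.ofReal (1 - θ)⁻¹ *
        (ENNReal.ofReal ((1 + θ) / (1 - θ)) * nrm volume ρ + ENNReal.ofReal θ)) ^ n := by
    intro θ hθ
    obtain ⟨v, hv, hvc, hv1, hv2, hloc, hnorm⟩ := exists_potential hn isClosed_empty
      (measure_empty) hE hF' hEne hρ.1 hfin hρ.2 hθ.1 hθ.2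
    obtain ⟨C, hC⟩ := lip_of_local hv hvc fun z => hloc z (by simp)
    have ht : 0 < 1 - θ := by linarith [hθ.2]
    obtain ⟨u, huL, huc, hu0, hut, hu1, hu2, huen⟩ := clamp n (by omega) hC hvc ht
    obtain ⟨D, hD⟩ := pol_lip h huL
    have hW := energy_pol h n huL
    refine modulus_le_of_potential hn (E := ∅) isClosed_empty measure_empty ?_ hD.continuous
      (pol_support huc) ht ?_ ?_ ?_ (by finiteness) ?_
    · intro w _ hw
      rwa [compl_empty] at hw
    · intro x hx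
      unfold pol
      rw [if_pos (hEl x hx).le, hu1 x (hv1 x hx), max_eq_left (hut _)]
    · intro x hx
      unfold pol
      rw [if_neg (not_le.2 (hFl x hx)), hu2 (r x) (hv2 _ (mem_image_of_mem _ hx)),
        min_eq_right (hu0 _)]
    · intro z _
      exact ⟨1, one_pos, D, hD.lipschitzOnWith⟩
    · rw [compl_empty, Measure.restrict_univ] at hnorm ⊢
      refine le_trans ?_ hnorm
      unfold nrm
      refine ENNReal.rpow_le_rpow ?_ (by positivity)
      rw [hW]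
      exact huen
  rw [← nrm_pow hn1]
  have hlim : Tendsto (fun θ : ℝ => (ENNReal.ofReal (1 - θ)⁻¹ *
      (ENNReal.ofReal ((1 + θ) / (1 - θ)) * nrm volume ρ + ENNReal.ofReal θ)) ^ n) (𝓝[>] 0)
      (𝓝 ((ENNReal.ofReal (1 - 0)⁻¹ *
      (ENNReal.ofReal ((1 + 0) / (1 - 0)) * nrm volume ρ + ENNReal.ofReal 0)) ^ n)) := by
    refine Tendsto.mono_left ?_ (nhdsWithin_le_nhds (s := Ioi (0:ℝ)))
    have h1 : Tendsto (fun θ : ℝ => ENNReal.ofReal (1 - θ)⁻¹) (𝓝 0)
        (𝓝 (ENNReal.ofReal (1 - 0)⁻¹)) := by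
      refine ENNReal.tendsto_ofReal ?_
      have : ContinuousAt (fun θ : ℝ => (1 - θ)⁻¹) 0 := by
        refine ContinuousAt.inv₀ (by fun_prop) (by norm_num)
      exact this
    have h2 : Tendsto (fun θ : ℝ => ENNReal.ofReal ((1 + θ) / (1 - θ))) (𝓝 0)
        (𝓝 (ENNReal.ofReal ((1 + 0) / (1 - 0)))) := by
      refine ENNReal.tendsto_ofReal ?_
      have : ContinuousAt (fun θ : ℝ => (1 + θ) / (1 - θ)) 0 := by
        refine ContinuousAt.div (by fun_prop) (by fun_prop) (by norm_num)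
      exact this
    have h3 : Tendsto (fun θ : ℝ => ENNReal.ofReal θ) (𝓝 0) (𝓝 (ENNReal.ofReal 0)) :=
      (ENNReal.continuous_ofReal.tendsto 0)
    have h4 := ((ENNReal.Tendsto.mul_const h2 (Or.inr hρtop)).add h3)
    have h5 := ENNReal.Tendsto.mul h1 (Or.inr (by finiteness)) h4 (Or.inr (by finiteness))
    have h6 := h5.ennrpow_const (n : ℝ)
    simpa only [ENNReal.rpow_natCast] using h6
  have hval : (ENNReal.ofReal (1 - 0)⁻¹ *
      (ENNReal.ofReal ((1 + 0) / (1 - 0)) * nrm volume ρ + ENNReal.ofReal 0)) ^ n =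
      nrm volume ρ ^ n := by
    simp
  rw [hval] at hlim
  refine ge_of_tendsto hlim ?_
  have : Ioo (0:ℝ) 1 ∈ 𝓝[>] (0:ℝ) := Ioo_mem_nhdsGT one_pos
  filter_upwards [this] with θ hθ using hstep θ hθ

end Pool.Agent.Y684.RI
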