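import Pool.Agent.TH221.PartA

/-!
Gradients of maxima and minima of Lipschitz functions, and the polarization of a function.
-/

set_option autoImplicit false

open MeasureTheory Set Filter Topology Metric
open scoped ENNReal NNReal ContDiff

namespace Pool.Agent.Y684.RI

open Pool.Agent.TH221

variable {n : ℕ}

/-- at a common point of differentiability, the gradients of the maximum and the minimum are the
two gradients -/
lemma fderiv_max_min {f g : Eu n → ℝ} {x : Eu n} (hf : DifferentiableAt ℝ f x)
    (hg : DifferentiableAt ℝ g x)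
    (hM : DifferentiableAt ℝ (fun y => max (f y) (g y)) x)
    (hm : DifferentiableAt ℝ (fun y => min (f y) (g y)) x) :
    (fderiv ℝ (fun y => max (f y) (g y)) x = fderiv ℝ f x ∧
      fderiv ℝ (fun y => min (f y) (g y)) x = fderiv ℝ g x) ∨
    (fderiv ℝ (fun y => max (f y) (g y)) x = fderiv ℝ g x ∧
      fderiv ℝ (fun y => min (f y) (g y)) x = fderiv ℝ f x) := by
  rcases lt_trichotomy (f x) (g x) with h | h | h
  · right
    have h1 : ∀ᶠ y in 𝓝 x, f y < g y := hf.continuousAt.eventually_lt hg.continuousAt h
    constructor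
    · refine Filter.EventuallyEq.fderiv_eq ?_
      filter_upwards [h1] with y hy using max_eq_right hy.le
    · refine Filter.EventuallyEq.fderiv_eq ?_
      filter_upwards [h1] with y hy using min_eq_left hy.le
  · left
    constructor
    · have h2 : IsLocalMin (fun y => max (f y) (g y) - f y) x := by
        refine Filter.Eventually.of_forall fun y => ?_
        simp only [h, max_self, sub_self]
        exact sub_nonneg.2 (le_max_left _ _)
      have h3 := h2.fderiv_eq_zero
      have h4 : fderiv ℝ (fun y => max (f y) (g y) - f y) x =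
          fderiv ℝ (fun y => max (f y) (g y)) x - fderiv ℝ f x := fderiv_fun_sub hM hf
      rw [h4] at h3
      exact sub_eq_zero.1 h3
    · have h2 : IsLocalMin (fun y => g y - min (f y) (g y)) x := by
        refine Filter.Eventually.of_forall fun y => ?_
        simp only [h, min_self, sub_self]
        exact sub_nonneg.2 (min_le_right _ _)
      have h3 := h2.fderiv_eq_zero
      have h4 : fderiv ℝ (fun y => g y - min (f y) (g y)) x =
          fderiv ℝ g x - fderiv ℝ (fun y => min (f y) (g y)) x := fderiv_fun_sub hg hm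
      rw [h4] at h3
      exact (sub_eq_zero.1 h3).symm
  · left
    have h1 : ∀ᶠ y in 𝓝 x, g y < f y := hg.continuousAt.eventually_lt hf.continuousAt h
    constructor
    · refine Filter.EventuallyEq.fderiv_eq ?_
      filter_upwards [h1] with y hy using max_eq_left hy.le
    · refine Filter.EventuallyEq.fderiv_eq ?_
      filter_upwards [h1] with y hy using min_eq_right hy.le

/-- the energy of the maximum plus the energy of the minimum -/
lemma energy_max_min (k : ℕ) {f g : Eu n → ℝ} {C D : ℝ≥0} (hf : LipschitzWith C f)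
    (hg : LipschitzWith D g) :
    (∫⁻ x, ENNReal.ofReal ‖fderiv ℝ (fun y => max (f y) (g y)) x‖ ^ k) +
      (∫⁻ x, ENNReal.ofReal ‖fderiv ℝ (fun y => min (f y) (g y)) x‖ ^ k) =
    (∫⁻ x, ENNReal.ofReal ‖fderiv ℝ f x‖ ^ k) + (∫⁻ x, ENNReal.ofReal ‖fderiv ℝ g x‖ ^ k) := by
  have hmeas : ∀ u : Eu n → ℝ, Measurable fun x => ENNReal.ofReal ‖fderiv ℝ u x‖ ^ k := fun u =>
    ((measurable_fderiv ℝ u).norm.ennreal_ofReal).pow_const k
  rw [← lintegral_add_left (hmeas _), ← lintegral_add_left (hmeas _)]
  refine lintegral_congr_ae ?_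
  filter_upwards [hf.ae_differentiableAt, hg.ae_differentiableAt,
    (hf.max hg).ae_differentiableAt, (hf.min hg).ae_differentiableAt] with x h1 h2 h3 h4
  rcases fderiv_max_min h1 h2 h3 h4 with ⟨h5, h6⟩ | ⟨h5, h6⟩
  · rw [h5, h6]
  · rw [h5, h6, add_comm]

/-- a locally Lipschitz function with compact support is Lipschitz -/
lemma lip_of_local {v : Eu n → ℝ} (hv : Continuous v) (hvc : HasCompactSupport v)
    (hloc : ∀ z : Eu n, ∃ r > 0, ∃ C, LipschitzOnWith C v (ball z r)) :
    ∃ C : ℝ≥0, LipschitzWith C v := by
  obtain ⟨R, hR⟩ := hvc.isBounded.exists_norm_le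
  obtain ⟨V, hV, hSV, C, hC⟩ := lip_near_compact (isCompact_closedBall (0 : Eu n) (|R| + 1))
    fun z _ => hloc z
  obtain ⟨M, hM⟩ := hv.bounded_above_of_compact_support hvc
  have hM0 : 0 ≤ M := (norm_nonneg _).trans (hM 0)
  have hzero : ∀ x : Eu n, |R| < ‖x‖ → v x = 0 := by
    intro x hx
    by_contra hne
    have := hR x (subset_tsupport v hne)
    exact absurd (this.trans (le_abs_self R)) (not_le.2 hx)
  refine ⟨C + Real.toNNReal (2 * M), LipschitzWith.of_dist_le_mul fun x y => ?_⟩
  have hd : 0 ≤ dist x y := dist_nonneg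
  have hexp : ((C + Real.toNNReal (2 * M) : ℝ≥0) : ℝ) * dist x y =
      C * dist x y + 2 * M * dist x y := by
    rw [NNReal.coe_add, Real.coe_toNNReal _ (by positivity)]
    exact add_mul _ _ _
  rw [hexp]
  have hC0 : 0 ≤ (C : ℝ) * dist x y := by positivity
  have hM1 : 0 ≤ 2 * M * dist x y := by positivity
  rcases le_or_gt 1 (dist x y) with h1 | h1
  · have h2 : dist (v x) (v y) ≤ ‖v x‖ + ‖v y‖ := by
      rw [dist_eq_norm]; exact norm_sub_le _ _
    have h3 := hM x
    have h4 := hM y
    have h5 : 2 * M ≤ 2 * M * dist x y := le_mul_of_one_le_right (by positivity) h1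
    linarith
  · by_cases hx : x ∈ closedBall (0 : Eu n) (|R| + 1)
    · by_cases hy : y ∈ closedBall (0 : Eu n) (|R| + 1)
      · have := hC.dist_le_mul x (hSV hx) y (hSV hy)
        linarith
      · rw [mem_closedBall_zero_iff, not_le] at hy
        have hx' : |R| < ‖x‖ := by
          have h2 : ‖y‖ ≤ ‖x‖ + dist x y := by
            rw [dist_comm, dist_eq_norm]
            have := norm_add_le x (y - x)
            rwa [add_sub_cancel] at this
          linarith
        rw [hzero x hx', hzero y (by linarith), dist_self]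
        linarith
    · rw [mem_closedBall_zero_iff, not_le] at hx
      have hy' : |R| < ‖y‖ := by
        have h2 : ‖x‖ ≤ ‖y‖ + dist x y := by
          rw [dist_eq_norm]
          have := norm_add_le y (x - y)
          rwa [add_sub_cancel] at this
        linarith
      rw [hzero x (by linarith), hzero y hy', dist_self]
      linarith

end Pool.Agent.Y684.RI
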