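import Pool.Agent.Y684.RI.Grad

/-!
Polarization of a Lipschitz function with respect to the hyperplane `l = 0`.
-/

set_option autoImplicit false

open MeasureTheory Set Filter Topology Metric
open scoped ENNReal NNReal ContDiff

namespace Pool.Agent.Y684.RI

open Pool.Agent.TH221

variable {n : ℕ}

/-- the polarization of `u`: the larger of the two values at `x` and its mirror image in the half
space `l > 0`, the smaller one in the half space `l < 0` -/
noncomputable def pol (l : Eu n →L[ℝ] ℝ) (r : Eu n ≃ₗᵢ[ℝ] Eu n) (u : Eu n → ℝ) (x : Eu n) : ℝ :=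
  if 0 ≤ l x then max (u x) (u (r x)) else min (u x) (u (r x))

/-- a reflection `r` in the hyperplane `l = 0` -/
structure IsRefl (l : Eu n →L[ℝ] ℝ) (r : Eu n ≃ₗᵢ[ℝ] Eu n) : Prop where
  invol : ∀ x, r (r x) = x
  neg : ∀ x, l (r x) = - l x
  bound : ∀ x, dist x (r x) ≤ 2 * |l x|
  ne : l ≠ 0

variable {l : Eu n →L[ℝ] ℝ} {r : Eu n ≃ₗᵢ[ℝ] Eu n}

lemma pol_lip (h : IsRefl l r) {u : Eu n → ℝ} {C : ℝ≥0} (hu : LipschitzWith C u) :
    ∃ D : ℝ≥0, LipschitzWith D (pol l r u) := by
  have h1 : LipschitzWith C (fun x => u (r x)) := by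
    have := hu.comp r.lipschitz
    rwa [mul_one] at this
  have hM : LipschitzWith C (fun x => max (u x) (u (r x))) := by
    have := hu.max h1
    rwa [max_self] at this
  have hm : LipschitzWith C (fun x => min (u x) (u (r x))) := by
    have := hu.min h1
    rwa [max_self] at this
  -- difference of the two
  have hd : LipschitzWith (C + C) (fun x => max (u x) (u (r x)) - min (u x) (u (r x))) := hM.sub hm
  have hl : LipschitzWith ((2 * C) * ‖l‖₊) (fun x => ((2 * C : ℝ≥0) : ℝ) * l x) := by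
    refine LipschitzWith.of_dist_le_mul fun x y => ?_
    rw [Real.dist_eq, ← mul_sub, abs_mul, NNReal.abs_eq, ← map_sub]
    have := l.le_opNorm (x - y)
    rw [Real.norm_eq_abs] at this
    calc ((2 * C : ℝ≥0) : ℝ) * |l (x - y)| ≤ ((2 * C : ℝ≥0) : ℝ) * (‖l‖ * ‖x - y‖) := by gcongr
      _ = _ := by rw [dist_eq_norm]; push_cast; ring
  set F : Eu n → ℝ := fun x => min (u x) (u (r x)) +
    max 0 (min (max (u x) (u (r x)) - min (u x) (u (r x))) (((2 * C : ℝ≥0) : ℝ) * l x)) with hF
  have hFl : ∃ D : ℝ≥0, LipschitzWith D F := by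
    have h2 := (hd.min hl).const_max 0
    exact ⟨_, hm.add h2⟩
  have hpF : pol l r u = F := by
    funext x
    have hb : |u x - u (r x)| ≤ C * (2 * |l x|) := by
      have h3 := hu.dist_le_mul x (r x)
      rw [Real.dist_eq] at h3
      exact h3.trans (by gcongr; exact h.bound x)
    have hdx : max (u x) (u (r x)) - min (u x) (u (r x)) = |u x - u (r x)| := by
      rw [max_sub_min_eq_abs, abs_sub_comm]
    unfold pol
    simp only [hF]
    rw [hdx]
    by_cases hx : 0 ≤ l x
    · rw [if_pos hx]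
      have h3 : |u x - u (r x)| ≤ ((2 * C : ℝ≥0) : ℝ) * l x := by
        rw [abs_of_nonneg hx] at hb
        push_cast
        linarith
      rw [min_eq_left h3, max_eq_right (a := (0:ℝ)) (abs_nonneg _), ← hdx]
      ring
    · rw [if_neg hx]
      push Not at hx
      have h3 : ((2 * C : ℝ≥0) : ℝ) * l x ≤ 0 :=
        mul_nonpos_of_nonneg_of_nonpos (by positivity) hx.le
      rw [max_eq_left ((min_le_right _ _).trans h3), add_zero]
  rw [hpF]
  exact hFl

lemma pol_support {u : Eu n → ℝ} (hc : HasCompactSupport u) : HasCompactSupport (pol l r u) := by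
  obtain ⟨R, hR⟩ := hc.isBounded.exists_norm_le
  refine HasCompactSupport.of_support_subset_isCompact (isCompact_closedBall (0 : Eu n) R) ?_
  intro x hx
  by_contra hcon
  rw [mem_closedBall_zero_iff, not_le] at hcon
  have h0 : ∀ y : Eu n, ‖y‖ = ‖x‖ → u y = 0 := by
    intro y hy
    by_contra hne
    have := hR y (subset_tsupport u hne)
    linarith
  apply hx
  unfold pol
  rw [h0 x rfl, h0 (r x) (r.norm_map x)]
  simp

lemma vol_hyper (h : IsRefl l r) : volume {x : Eu n | l x = 0} = 0 := by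
  have h1 : (LinearMap.ker (l : Eu n →ₗ[ℝ] ℝ)) ≠ ⊤ := by
    intro h2
    apply h.ne
    ext x
    have h3 : x ∈ LinearMap.ker (l : Eu n →ₗ[ℝ] ℝ) := by rw [h2]; trivial
    simpa using h3
  have h2 := Measure.addHaar_submodule (volume : Measure (Eu n)) _ h1
  have h3 : {x : Eu n | l x = 0} = ((LinearMap.ker (l : Eu n →ₗ[ℝ] ℝ) : Submodule ℝ (Eu n)) :
      Set (Eu n)) := by
    ext x
    simp
  rw [h3]
  exact h2

/-- integrals over the two half spaces of an invariant function -/
lemma half (h : IsRefl l r) {f : Eu n → ℝ≥0∞} (hf : Measurable f) (hinv : ∀ x, f (r x) = f x) :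
    (∫⁻ x, f x = 2 * ∫⁻ x in {x | 0 < l x}, f x) ∧
      (∫⁻ x, f x = 2 * ∫⁻ x in {x | l x < 0}, f x) := by
  have hmp : MeasurePreserving r volume volume := r.measurePreserving
  have h1 : MeasurableSet {x : Eu n | 0 < l x} :=
    (isOpen_lt continuous_const l.continuous).measurableSet
  have h2 : MeasurableSet {x : Eu n | l x < 0} :=
    (isOpen_lt l.continuous continuous_const).measurableSet
  have h3 : ∫⁻ x in {x | 0 < l x}, f x = ∫⁻ x in {x | l x < 0}, f x := by
    have h4 := hmp.setLIntegral_comp_preimage h1 hf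
    rw [← h4]
    have h5 : (r : Eu n → Eu n) ⁻¹' {x | 0 < l x} = {x | l x < 0} := by
      ext x
      simp only [mem_preimage, mem_ofPred_eq, h.neg]
      constructor <;> intro h6 <;> linarith
    rw [h5]
    exact lintegral_congr fun x => hinv x
  have h4 : ∫⁻ x, f x = (∫⁻ x in {x | 0 < l x}, f x) + ∫⁻ x in {x | l x < 0}, f x := by
    rw [← lintegral_union h2 (by
      rw [Set.disjoint_left]
      intro x hx hx'
      simp only [mem_ofPred_eq] at hx hx'
      linarith)]
    rw [← setLIntegral_univ]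
    refine setLIntegral_congr ?_
    rw [eventuallyEq_set]
    have h5 := vol_hyper h
    rw [measure_eq_zero_iff_ae_notMem] at h5
    filter_upwards [h5] with x hx
    simp only [mem_univ, true_iff, mem_union, mem_ofPred_eq]
    rcases lt_trichotomy (l x) 0 with h6 | h6 | h6
    · exact Or.inr h6
    · exact absurd h6 hx
    · exact Or.inl h6
  constructor
  · rw [h4, ← h3, two_mul]
  · rw [h4, h3, two_mul]

lemma norm_fderiv_refl (r : Eu n ≃ₗᵢ[ℝ] Eu n) (f : Eu n → ℝ) (x : Eu n) :
    ‖fderiv ℝ (fun y => f (r y)) x‖ = ‖fderiv ℝ f (r x)‖ := by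
  have h1 : fderiv ℝ (f ∘ r) x = (fderiv ℝ f (r x)).comp (r.toContinuousLinearEquiv : Eu n →L[ℝ] Eu n) :=
    r.toContinuousLinearEquiv.comp_right_fderiv
  change ‖fderiv ℝ (f ∘ r) x‖ = _
  rw [h1]
  exact ContinuousLinearMap.opNorm_comp_linearIsometryEquiv _ r

/-- polarization preserves the energy -/
theorem energy_pol (h : IsRefl l r) (k : ℕ) {u : Eu n → ℝ} {C : ℝ≥0} (hu : LipschitzWith C u) :
    ∫⁻ x, ENNReal.ofReal ‖fderiv ℝ (pol l r u) x‖ ^ k =
      ∫⁻ x, ENNReal.ofReal ‖fderiv ℝ u x‖ ^ k := by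
  have h1 : LipschitzWith C (fun x => u (r x)) := by
    have := hu.comp r.lipschitz
    rwa [mul_one] at this
  set M : Eu n → ℝ := fun y => max (u y) (u (r y)) with hM
  set m : Eu n → ℝ := fun y => min (u y) (u (r y)) with hm
  have hmeas : ∀ u : Eu n → ℝ, Measurable fun x => ENNReal.ofReal ‖fderiv ℝ u x‖ ^ k := fun u =>
    ((measurable_fderiv ℝ u).norm.ennreal_ofReal).pow_const k
  have hMr : (fun y => M (r y)) = M := by
    funext y; simp only [hM, h.invol, max_comm]
  have hmr : (fun y => m (r y)) = m := by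
    funext y; simp only [hm, h.invol, min_comm]
  have hMi : ∀ x, ENNReal.ofReal ‖fderiv ℝ M (r x)‖ ^ k = ENNReal.ofReal ‖fderiv ℝ M x‖ ^ k := by
    intro x
    rw [← norm_fderiv_refl r M x, hMr]
  have hmi : ∀ x, ENNReal.ofReal ‖fderiv ℝ m (r x)‖ ^ k = ENNReal.ofReal ‖fderiv ℝ m x‖ ^ k := by
    intro x
    rw [← norm_fderiv_refl r m x, hmr]
  have e1 := (half h (hmeas M) hMi).1
  have e2 := (half h (hmeas m) hmi).2
  have e3 := energy_max_min k hu h1
  have e4 : ∫⁻ x, ENNReal.ofReal ‖fderiv ℝ (fun y => u (r y)) x‖ ^ k =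
      ∫⁻ x, ENNReal.ofReal ‖fderiv ℝ u x‖ ^ k := by
    have hmp : MeasurePreserving r volume volume := r.measurePreserving
    rw [← hmp.lintegral_comp (hmeas u)]
    refine lintegral_congr fun x => ?_
    rw [norm_fderiv_refl]
  have hS1 : MeasurableSet {x : Eu n | 0 < l x} :=
    (isOpen_lt continuous_const l.continuous).measurableSet
  have hS2 : MeasurableSet {x : Eu n | l x < 0} :=
    (isOpen_lt l.continuous continuous_const).measurableSet
  have e5 : ∫⁻ x, ENNReal.ofReal ‖fderiv ℝ (pol l r u) x‖ ^ k =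
      (∫⁻ x in {x | 0 < l x}, ENNReal.ofReal ‖fderiv ℝ M x‖ ^ k) +
        ∫⁻ x in {x | l x < 0}, ENNReal.ofReal ‖fderiv ℝ m x‖ ^ k := by
    have e6 : ∫⁻ x in {x | 0 < l x}, ENNReal.ofReal ‖fderiv ℝ M x‖ ^ k =
        ∫⁻ x in {x | 0 < l x}, ENNReal.ofReal ‖fderiv ℝ (pol l r u) x‖ ^ k := by
      refine setLIntegral_congr_fun hS1 fun x hx => ?_
      have h7 : pol l r u =ᶠ[𝓝 x] M := by
        filter_upwards [(isOpen_lt continuous_const l.continuous).mem_nhds hx] with y hy
        unfold pol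
        exact if_pos (le_of_lt hy)
      rw [h7.fderiv_eq]
    have e7 : ∫⁻ x in {x | l x < 0}, ENNReal.ofReal ‖fderiv ℝ m x‖ ^ k =
        ∫⁻ x in {x | l x < 0}, ENNReal.ofReal ‖fderiv ℝ (pol l r u) x‖ ^ k := by
      refine setLIntegral_congr_fun hS2 fun x hx => ?_
      have h7 : pol l r u =ᶠ[𝓝 x] m := by
        filter_upwards [(isOpen_lt l.continuous continuous_const).mem_nhds hx] with y hy
        unfold pol
        exact if_neg (not_le.2 hy)
      rw [h7.fderiv_eq]
    rw [e6, e7, ← lintegral_union hS2 (by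
      rw [Set.disjoint_left]
      intro x hx hx'
      simp only [mem_ofPred_eq] at hx hx'
      linarith)]
    rw [← setLIntegral_univ]
    refine setLIntegral_congr ?_
    rw [eventuallyEq_set]
    have h5 := vol_hyper h
    rw [measure_eq_zero_iff_ae_notMem] at h5
    filter_upwards [h5] with x hx
    simp only [mem_univ, true_iff, mem_union, mem_ofPred_eq]
    rcases lt_trichotomy (l x) 0 with h6 | h6 | h6
    · exact Or.inr h6
    · exact absurd h6 hx
    · exact Or.inl h6
  have e8 : 2 * ∫⁻ x, ENNReal.ofReal ‖fderiv ℝ (pol l r u) x‖ ^ k =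
      2 * ∫⁻ x, ENNReal.ofReal ‖fderiv ℝ u x‖ ^ k := by
    rw [e5, mul_add, ← e1, ← e2, e3, e4, two_mul]
  exact (ENNReal.mul_right_inj (by norm_num) (by norm_num)).1 e8

end Pool.Agent.Y684.RI
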